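import Pool.Agent.Helper66.HL.Cone

/-!
Normalised weights, the Markov operator of weighted proper colourings and Jensen's inequality.
-/

set_option autoImplicit false

namespace Pool.Agent.Helper56.HLA

open Pool.Agent.Helper6.HL Pool.Agent.Helper66.HL Finset Classical

variable {q : ℕ}

/-- normalised weights -/
structure Norm (x : Fin q → ℝ) : Prop where
  nonneg : ∀ i, 0 ≤ x i
  sum_one : ∑ i, x i / (1 + x i) = 1

/-- the probabilities -/
noncomputable def pp (x : Fin q → ℝ) (i : Fin q) : ℝ := x i / (1 + x i)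

/-- the reversible measure (not normalised) -/
noncomputable def rho (x : Fin q → ℝ) (i : Fin q) : ℝ := x i / (1 + x i) ^ 2

/-- integration against `rho` -/
noncomputable def E (x f : Fin q → ℝ) : ℝ := ∑ i, rho x i * f i

/-- total mass of `rho` -/
noncomputable def HH (x : Fin q → ℝ) : ℝ := ∑ i, rho x i

/-- the Markov operator -/
noncomputable def P (x f : Fin q → ℝ) (i : Fin q) : ℝ :=
  (1 + x i) * (∑ j, pp x j * f j) - x i * f i

variable {x : Fin q → ℝ}

theorem Norm.pos (h : Norm x) (i : Fin q) : 0 < 1 + x i := by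
  have := h.nonneg i; linarith

theorem Norm.pp_nonneg (h : Norm x) (i : Fin q) : 0 ≤ pp x i :=
  div_nonneg (h.nonneg i) (h.pos i).le

theorem Norm.pp_sum (h : Norm x) : ∑ i, pp x i = 1 := h.sum_one

theorem Norm.one_sub_pp (h : Norm x) (i : Fin q) : (1 + x i) * (1 - pp x i) = 1 := by
  have := (h.pos i).ne'
  unfold pp
  field_simp
  ring

theorem Norm.mul_pp (h : Norm x) (i : Fin q) : (1 + x i) * pp x i = x i := by
  have := (h.pos i).ne'
  unfold pp
  field_simp

theorem Norm.pp_lt_one (h : Norm x) (i : Fin q) : pp x i < 1 := by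
  have h1 := h.pos i
  rw [pp, div_lt_one h1]; linarith

theorem Norm.rho_eq (h : Norm x) (i : Fin q) : rho x i = pp x i * (1 - pp x i) := by
  have := (h.pos i).ne'
  unfold rho pp
  field_simp
  ring

theorem Norm.rho_nonneg (h : Norm x) (i : Fin q) : 0 ≤ rho x i :=
  div_nonneg (h.nonneg i) (by positivity)

theorem Norm.rho_mul (h : Norm x) (i : Fin q) : rho x i * (1 + x i) = pp x i := by
  have := (h.pos i).ne'
  unfold rho pp
  field_simp

theorem Norm.rho_mul_x (h : Norm x) (i : Fin q) : rho x i * x i = pp x i ^ 2 := by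
  have := (h.pos i).ne'
  unfold rho pp
  field_simp

theorem Norm.rho_mul_sq (h : Norm x) (i : Fin q) : rho x i * (1 + x i) ^ 2 = x i := by
  have := (h.pos i).ne'
  unfold rho
  field_simp

theorem P_eq (h : Norm x) (f : Fin q → ℝ) (i : Fin q) :
    P x f i = (1 + x i) * ∑ j ∈ univ.erase i, pp x j * f j := by
  rw [P, ← Finset.sum_erase_add univ _ (mem_univ i), mul_add, ← mul_assoc (1 + x i) (pp x i),
    h.mul_pp]
  ring

theorem HH_pos (h : Norm x) : 0 < HH x := by
  have h1 : 0 ≤ HH x := sum_nonneg fun i _ => h.rho_nonneg i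
  rcases h1.lt_or_eq with h2 | h2
  · exact h2
  · exfalso
    have h3 := (sum_eq_zero_iff_of_nonneg fun i _ => h.rho_nonneg i).1 h2.symm
    have h4 : ∑ i, pp x i = 0 := sum_eq_zero fun i hi => by
      rw [← h.rho_mul, h3 i hi, zero_mul]
    rw [h.pp_sum] at h4
    exact one_ne_zero h4

theorem E_g (h : Norm x) : E x (fun i => 1 + x i) = 1 := by
  rw [E, sum_congr rfl fun i _ => h.rho_mul i, h.pp_sum]

/-- `P` acting on `g f` is `g` times the transfer operator acting on `f` -/
theorem P_K (h : Norm x) (f : Fin q → ℝ) (i : Fin q) :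
    P x (fun j => (1 + x j) * f j) i = (1 + x i) * K x f i := by
  rw [P_eq h, K]
  congr 1
  refine sum_congr rfl fun j _ => ?_
  rw [← mul_assoc, mul_comm (pp x j), h.mul_pp]

theorem E_P_mul (h : Norm x) (f k : Fin q → ℝ) :
    E x (fun i => P x f i * k i) =
      (∑ j, pp x j * f j) * (∑ j, pp x j * k j) - ∑ j, pp x j ^ 2 * (f j * k j) := by
  rw [E, mul_sum, ← sum_sub_distrib]
  refine sum_congr rfl fun i _ => ?_
  rw [P, ← h.rho_mul_x, ← h.rho_mul]
  ring

theorem E_P_comm (h : Norm x) (f k : Fin q → ℝ) :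
    E x (fun i => P x f i * k i) = E x (fun i => f i * P x k i) := by
  have h1 : E x (fun i => f i * P x k i) = E x (fun i => P x k i * f i) := by
    congr 1; funext i; ring
  rw [h1, E_P_mul h, E_P_mul h, mul_comm (∑ j, pp x j * f j)]
  congr 1
  exact sum_congr rfl fun i _ => by ring

theorem P_one (h : Norm x) (i : Fin q) : P x (fun _ => 1) i = 1 := by
  rw [P]
  simp only [mul_one]
  rw [h.pp_sum]; ring

theorem E_P (h : Norm x) (f : Fin q → ℝ) : E x (P x f) = E x f := by
  have h1 := E_P_comm h f (fun _ => 1)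
  simp only [mul_one, P_one h] at h1
  exact h1

/-! Jensen's inequality -/

theorem log_P (h : Norm x) {f : Fin q → ℝ} (hf : ∀ i, 0 < f i) (i : Fin q) :
    (1 + x i) * ∑ j ∈ univ.erase i, pp x j * Real.log (f j) ≤ Real.log (P x f i) := by
  have h1 : ∑ j ∈ univ.erase i, (1 + x i) * pp x j = 1 := by
    have h2 : ∑ j ∈ univ.erase i, pp x j = 1 - pp x i := by
      rw [← h.pp_sum, ← Finset.sum_erase_add univ _ (mem_univ i)]; ring
    rw [← mul_sum, h2, h.one_sub_pp i]
  have h2 := strictConcaveOn_log_Ioi.concaveOn.le_map_sum (t := univ.erase i)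
    (w := fun j => (1 + x i) * pp x j) (p := f)
    (fun j _ => mul_nonneg (h.pos i).le (h.pp_nonneg j)) h1 (fun j _ => hf j)
  simp only [smul_eq_mul] at h2
  rw [P_eq h, mul_sum, mul_sum]
  simpa only [mul_assoc] using h2

theorem P_pos (h : Norm x) {f : Fin q → ℝ} (hf : ∀ i, 0 < f i) (i : Fin q) : 0 < P x f i := by
  rw [P_eq h]
  refine mul_pos (h.pos i) ?_
  have h1 : 0 < ∑ j ∈ univ.erase i, pp x j := by
    have h2 : ∑ j ∈ univ.erase i, pp x j = 1 - pp x i := by
      rw [← h.pp_sum, ← Finset.sum_erase_add univ _ (mem_univ i)]; ring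
    rw [h2]
    have := h.pp_lt_one i
    linarith
  by_contra hcon
  have h3 : ∑ j ∈ univ.erase i, pp x j * f j = 0 :=
    le_antisymm (not_lt.1 hcon) (sum_nonneg fun j _ => mul_nonneg (h.pp_nonneg j) (hf j).le)
  have h4 := (sum_eq_zero_iff_of_nonneg fun j _ => mul_nonneg (h.pp_nonneg j) (hf j).le).1 h3
  have h5 : ∑ j ∈ univ.erase i, pp x j = 0 := sum_eq_zero fun j hj => by
    rcases mul_eq_zero.1 (h4 j hj) with h6 | h6
    · exact h6
    · exact absurd h6 (hf j).ne'
  linarith

theorem jensen_P (h : Norm x) {f : Fin q → ℝ} (hf : ∀ i, 0 < f i) :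
    E x (fun i => Real.log (f i)) ≤ E x (fun i => Real.log (P x f i)) := by
  have h1 : E x (fun i => Real.log (f i)) =
      ∑ i, rho x i * ((1 + x i) * ∑ j ∈ univ.erase i, pp x j * Real.log (f j)) := by
    have h2 : ∀ i, rho x i * ((1 + x i) * ∑ j ∈ univ.erase i, pp x j * Real.log (f j)) =
        pp x i * (∑ j, pp x j * Real.log (f j)) - pp x i * (pp x i * Real.log (f i)) := by
      intro i
      rw [← mul_assoc, h.rho_mul, ← Finset.sum_erase_add univ _ (mem_univ i)]
      ring
    rw [sum_congr rfl fun i _ => h2 i, sum_sub_distrib, ← sum_mul, h.pp_sum, one_mul,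
      ← sum_sub_distrib, E]
    exact sum_congr rfl fun i _ => by rw [h.rho_eq]; ring
  rw [h1, E]
  exact sum_le_sum fun i _ => mul_le_mul_of_nonneg_left (log_P h hf i) (h.rho_nonneg i)

/-- Jensen's inequality for the expectation -/
theorem jensen_E (h : Norm x) {f : Fin q → ℝ} (hf : ∀ i, 0 < f i) :
    HH x * Real.exp (E x (fun i => Real.log (f i)) / HH x) ≤ E x f := by
  have hH := HH_pos h
  have h1 : ∑ i, rho x i / HH x = 1 := by
    rw [← sum_div]; exact div_self hH.ne'
  have h2 := strictConcaveOn_log_Ioi.concaveOn.le_map_sum (t := univ)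
    (w := fun j => rho x j / HH x) (p := f)
    (fun j _ => div_nonneg (h.rho_nonneg j) hH.le) h1 (fun j _ => hf j)
  simp only [smul_eq_mul] at h2
  have h3 : ∑ i, rho x i / HH x * Real.log (f i) = E x (fun i => Real.log (f i)) / HH x := by
    rw [E, sum_div]; exact sum_congr rfl fun i _ => by ring
  have h4 : ∑ i, rho x i / HH x * f i = E x f / HH x := by
    rw [E, sum_div]; exact sum_congr rfl fun i _ => by ring
  rw [h3, h4] at h2
  have h5 : 0 < E x f := by
    have h6 : 0 ≤ E x f := sum_nonneg fun i _ => mul_nonneg (h.rho_nonneg i) (hf i).le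
    rcases h6.lt_or_eq with h7 | h7
    · exact h7
    · exfalso
      have h8 := (sum_eq_zero_iff_of_nonneg fun i _ => mul_nonneg (h.rho_nonneg i) (hf i).le).1
        h7.symm
      have h9 : HH x = 0 := sum_eq_zero fun i hi => by
        rcases mul_eq_zero.1 (h8 i hi) with h10 | h10
        · exact h10
        · exact absurd h10 (hf i).ne'
      exact hH.ne' h9
  have h6 := Real.exp_le_exp.2 h2
  rw [Real.exp_log (div_pos h5 hH), le_div_iff₀ hH] at h6
  linarith

/-- number of leaves of the forest -/
def lf : B → ℕ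
  | .nil => 0
  | .cons c s => max 1 (lf c) + lf s

theorem lf_pos (c s : B) : 1 ≤ lf (.cons c s) := by
  simp only [lf]; omega

theorem M_pos (h : Norm x) (F : B) (i : Fin q) : 0 < M x F i := by
  induction F generalizing i with
  | nil => simp [M_nil]
  | cons c s ihc ihs =>
    have h1 : 0 < P x (fun j => (1 + x j) * M x c j) i :=
      P_pos h (fun j => mul_pos (h.pos j) (ihc j)) i
    rw [P_K h] at h1
    rw [M_cons_K]
    exact mul_pos (pos_of_mul_pos_right h1 (h.pos i).le) (ihs i)

/-- mean logarithm of `g` -/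
noncomputable def LG (x : Fin q → ℝ) : ℝ := E x (fun i => Real.log (1 + x i))

/-- mean logarithm of `P g` -/
noncomputable def LA (x : Fin q → ℝ) : ℝ :=
  E x (fun i => Real.log (P x (fun j => 1 + x j) i))

theorem LG_le_LA (h : Norm x) : LG x ≤ LA x := jensen_P h fun i => h.pos i

theorem ell (h : Norm x) (F : B) :
    (lf F : ℝ) * LA x - ((lf F : ℝ) - 1) * LG x ≤
      E x (fun i => Real.log ((1 + x i) * M x F i)) := by
  induction F with
  | nil => simp [lf, M_nil, LG]
  | cons c s ihc ihs =>
    have h1 : E x (fun i => Real.log ((1 + x i) * M x (.cons c s) i)) =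
        E x (fun i => Real.log (P x (fun j => (1 + x j) * M x c j) i)) +
        E x (fun i => Real.log ((1 + x i) * M x s i)) - LG x := by
      rw [LG, E, E, E, E, ← sum_add_distrib, ← sum_sub_distrib]
      refine sum_congr rfl fun i _ => ?_
      rw [P_K h, M_cons_K]
      have hg := (h.pos i)
      have hc : 0 < K x (M x c) i := by
        have := P_pos h (f := fun j => (1 + x j) * M x c j)
          (fun j => mul_pos (h.pos j) (M_pos h c j)) i
        rw [P_K h] at this
        exact pos_of_mul_pos_right this hg.le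
      have hs := M_pos h s i
      rw [Real.log_mul hg.ne' (mul_pos hc hs).ne', Real.log_mul hc.ne' hs.ne',
        Real.log_mul hg.ne' hc.ne', Real.log_mul hg.ne' hs.ne']
      ring
    rw [h1]
    have h2 := LG_le_LA h
    cases c with
    | nil =>
      have h3 : lf (.cons .nil s) = 1 + lf s := by simp [lf]
      have h4 : E x (fun i => Real.log (P x (fun j => (1 + x j) * M x .nil j) i)) = LA x := by
        rw [LA]; simp only [M_nil, mul_one]
      rw [h3, h4]
      push_cast
      linarith
    | cons a b =>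
      have h3 : lf (.cons (.cons a b) s) = lf (.cons a b) + lf s := by
        have := lf_pos a b
        rw [lf]; omega
      have h4 := jensen_P h (f := fun j => (1 + x j) * M x (.cons a b) j)
        (fun j => mul_pos (h.pos j) (M_pos h _ j))
      rw [h3]
      push_cast
      linarith

/-- the lower bound for a tree rooted at an inner vertex -/
theorem X_lower (h : Norm x) (F : B) (hF : 4 ≤ lf F) :
    HH x * Real.exp ((4 * LA x - 2 * LG x) / HH x) ≤ X x x F := by
  have h1 : X x x F = E x (fun i => (1 + x i) * ((1 + x i) * M x F i)) := by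
    rw [X, E]
    refine sum_congr rfl fun i _ => ?_
    conv_lhs => rw [← h.rho_mul_sq i]
    ring
  rw [h1]
  refine le_trans ?_ (jensen_E h fun i => mul_pos (h.pos i) (mul_pos (h.pos i) (M_pos h F i)))
  refine mul_le_mul_of_nonneg_left (Real.exp_le_exp.2 ?_) (HH_pos h).le
  refine div_le_div_of_nonneg_right ?_ (HH_pos h).le
  have h2 : E x (fun i => Real.log ((1 + x i) * ((1 + x i) * M x F i))) =
      LG x + E x (fun i => Real.log ((1 + x i) * M x F i)) := by
    rw [LG, E, E, E, ← sum_add_distrib]
    refine sum_congr rfl fun i _ => ?_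
    rw [Real.log_mul (h.pos i).ne' (mul_pos (h.pos i) (M_pos h F i)).ne']
    ring
  rw [h2]
  have h3 := ell h F
  have h4 := LG_le_LA h
  have h5 : (4 : ℝ) ≤ lf F := by exact_mod_cast hF
  nlinarith [mul_nonneg (sub_nonneg.2 h5) (sub_nonneg.2 h4)]

end Pool.Agent.Helper56.HLA
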