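import Pool.Agent.Helper66.HL.Cone
import Pool.Agent.Helper56.HLA.Op

/-!
Coding a finite tree by a rooted forest, keeping track of the number of leaves.
-/

set_option autoImplicit false

namespace Pool.Agent.Helper56.HLA

open Pool.Agent.Helper6.HL Pool.Agent.Helper66.HL Finset Classical

variable {q : ℕ}

/-- excess of a forest: sum over its vertices of (number of children - 1) -/
def ex : B → ℕ
  | .nil => 0
  | .cons c s => ex c + (kids c - 1) + ex s

theorem lf_eq (F : B) : lf F = kids F + ex F := by
  induction F with
  | nil => rfl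
  | cons c s ihc ihs =>
    simp only [lf, kids, ex]
    rw [ihc, ihs]
    cases c with
    | nil => simp [kids, ex]; omega
    | cons a b => simp only [kids, ex]; omega

/-- Every finite tree is coded by a forest, with control of the number of leaves. -/
theorem exists_code_ex (w : Fin q → ℝ) (n : ℕ) :
    ∀ (V : Type) [Fintype V] [DecidableEq V] (G : SimpleGraph V),
    Fintype.card V = n + 1 → G.IsTree → ∀ F : V → B, ∃ H : B,
      ex H + (kids H - 2) = ∑ v, (ex (F v) + (deg G v + kids (F v) - 2)) ∧
      H.size + 1 = ∑ v, ((F v).size + 1) ∧ Y G (fun v i => w i * M w (F v) i) = X w w H := by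
  induction n with
  | zero =>
    intro V _ _ G hV _ F
    obtain ⟨v, hv⟩ := Fintype.card_eq_one_iff.1 hV
    have : Unique V := ⟨⟨v⟩, hv⟩
    refine ⟨F default, ?_, by simp, ?_⟩
    · have : deg G default = 0 := by
        rw [deg, card_eq_zero, filter_eq_empty_iff]
        intro x _ hx
        exact absurd hx (by rw [Subsingleton.elim x default]; exact G.irrefl)
      simp [this]
    rw [Y, X, ← (Equiv.funUnique V (Fin q)).symm.sum_comp]
    refine sum_congr rfl fun i _ => ?_
    rw [if_pos]
    · simp
    · intro a b hab
      exact absurd hab (by rw [Subsingleton.elim a b]; exact G.irrefl)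
  | succ n ih =>
    intro V _ _ G hV hT F
    have : Nontrivial V := Fintype.one_lt_card_iff_nontrivial.1 (by omega)
    obtain ⟨v, hv⟩ := hT.exists_vert_degree_one_of_nontrivial
    obtain ⟨u, hu1, hu2⟩ := SimpleGraph.degree_eq_one_iff_existsUnique_adj.1 hv
    have huv : u ≠ v := hu1.ne'
    have hadj : ∀ x, G.Adj v x ↔ x = u := fun x => ⟨fun h => hu2 x h, fun h => h ▸ hu1⟩
    have hT' : (G.induce ({v}ᶜ : Set V)).IsTree :=
      ⟨hT.connected.induce_compl_singleton_of_degree_eq_one hv, hT.isAcyclic.induce _⟩
    have hcard : Fintype.card ({v}ᶜ : Set V) = n + 1 := by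
      rw [Fintype.card_compl_set, hV]; simp
    have hdv : deg G v = 1 := by
      rw [deg, card_eq_one]
      exact ⟨u, by ext x; simp [hadj]⟩
    obtain ⟨H, h0, h1, h2⟩ := ih ({v}ᶜ : Set V) (G.induce ({v}ᶜ : Set V)) hcard
      hT' (fun x => if (x : V) = u then .cons (F v) (F x) else F x)
    have huv' : u ∈ ({v}ᶜ : Set V) := huv
    refine ⟨H, ?_, ?_, ?_⟩
    · rw [h0, Fintype.sum_eq_add_sum_subtype_ne _ v, hdv]
      have h3 : ∀ x : ({v}ᶜ : Set V),
          (ex (if (x : V) = u then B.cons (F v) (F x) else F x) +
            (deg (G.induce ({v}ᶜ : Set V)) x +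
              kids (if (x : V) = u then B.cons (F v) (F x) else F x) - 2)) =
          (ex (F x) + (deg G x + kids (F x) - 2)) +
            if (x : V) = u then ex (F v) + (1 + kids (F v) - 2) else 0 := fun x => by
        have hd := deg_induce G v u hadj x
        by_cases hx : (x : V) = u
        · simp only [hx, if_true, ex, kids] at hd ⊢
          omega
        · simp only [hx, if_false, add_zero] at hd ⊢
          rw [hd]
      rw [sum_congr rfl fun x _ => h3 x, sum_add_distrib]
      have h4 : (∑ x : ({v}ᶜ : Set V), if (x : V) = u then ex (F v) + (1 + kids (F v) - 2) else 0) =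
          ex (F v) + (1 + kids (F v) - 2) := by
        rw [Fintype.sum_eq_single (⟨u, huv'⟩ : ({v}ᶜ : Set V))]
        · simp
        · intro x hx
          rw [if_neg]
          intro h
          exact hx (Subtype.ext h)
      rw [h4, add_comm]
      rfl
    · rw [h1, Fintype.sum_eq_add_sum_subtype_ne _ v]
      have h3 : ∀ x : ({v}ᶜ : Set V),
          (if (x : V) = u then B.cons (F v) (F x) else F x).size + 1 =
          ((F x).size + 1) + if (x : V) = u then (F v).size + 1 else 0 := fun x => by
        by_cases hx : (x : V) = u
        · simp only [hx, if_true, B.size]; omega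
        · simp only [hx, if_false, add_zero]
      rw [sum_congr rfl fun x _ => h3 x, sum_add_distrib]
      have h4 : (∑ x : ({v}ᶜ : Set V), if (x : V) = u then (F v).size + 1 else 0) =
          (F v).size + 1 := by
        rw [Fintype.sum_eq_single (⟨u, huv'⟩ : ({v}ᶜ : Set V))]
        · simp
        · intro x hx
          rw [if_neg]
          intro h
          exact hx (Subtype.ext h)
      rw [h4, add_comm]
      rfl
    · rw [← h2, Y_leaf G v u huv hadj]
      congr 1
      funext x j
      by_cases hx : (x : V) = u
      · simp only [hx, if_true, M_cons]; ring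
      · simp only [hx, if_false, mul_one]

theorem deg_eq_degree {V : Type} [Fintype V] (T : SimpleGraph V) (v : V) :
    deg T v = T.degree v := by
  rw [deg, ← SimpleGraph.card_neighborFinset_eq_degree]
  congr 1
  ext x
  simp

/-- a tree with two branch vertices has at least four leaves and at least six vertices -/
theorem code_four (w : Fin q → ℝ) (m : ℕ) (T : SimpleGraph (Fin (m + 1))) (hT : T.IsTree)
    (u v : Fin (m + 1)) (huv : u ≠ v) (hu : 3 ≤ T.degree u) (hv : 3 ≤ T.degree v) :
    5 ≤ m ∧ ∃ H : B, 4 ≤ lf H ∧ H.size = m ∧ Y T (fun _ i => w i) = X w w H := by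
  obtain ⟨H, h0, h1, h2⟩ := exists_code_ex w m (Fin (m + 1)) T (by simp) hT (fun _ => .nil)
  have hsize : H.size = m := by
    have : ∑ v : Fin (m + 1), ((B.nil : B).size + 1) = m + 1 := by simp [B.size]
    omega
  have hY : Y T (fun _ i => w i) = X w w H := by
    rw [← h2]; simp [M_nil]
  simp only [ex, kids, add_zero, zero_add, deg_eq_degree] at h0
  have hpair : ∀ f : Fin (m + 1) → ℕ, f u + f v ≤ ∑ y, f y := by
    intro f
    rw [← sum_pair huv]
    exact sum_le_sum_of_subset (subset_univ _)
  have h4 : 2 ≤ ex H + (kids H - 2) := by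
    rw [h0]
    have := hpair (fun y => T.degree y - 2)
    omega
  constructor
  · have hm : m ≠ 0 := by
      rintro rfl
      exact huv (Subsingleton.elim (α := Fin 1) u v)
    have : Nontrivial (Fin (m + 1)) := ⟨⟨u, v, huv⟩⟩
    have hd : ∀ y, 1 ≤ T.degree y := fun y => hT.connected.preconnected.degree_pos_of_nontrivial y
    have h5 := T.sum_degrees_eq_twice_card_edges
    have h6 := hT.card_edgeFinset
    rw [Fintype.card_fin] at h6
    have h7 := hpair (fun y => T.degree y - 1)
    have h8 : ∑ y, T.degree y = ∑ y, (T.degree y - 1) + (m + 1) := by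
      have e1 : ∑ y : Fin (m + 1), 1 = m + 1 := by simp
      have e2 : ∑ y, T.degree y = ∑ y, ((T.degree y - 1) + 1) :=
        sum_congr rfl fun y _ => by have := hd y; omega
      rw [sum_add_distrib, e1] at e2
      exact e2
    omega
  · by_cases hk : 2 ≤ kids H
    · exact ⟨H, by rw [lf_eq]; omega, hsize, hY⟩
    · cases H with
      | nil => simp [ex, kids] at h4
      | cons c s =>
        have hs : s = .nil := by
          cases s with
          | nil => rfl
          | cons a b => simp only [kids] at hk; omega
        subst hs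
        refine ⟨.cons .nil c, ?_, ?_, ?_⟩
        · rw [lf_eq]
          cases c with
          | nil => simp [kids, ex] at h4
          | cons a b =>
            simp only [kids, ex] at h4 ⊢
            omega
        · simp only [B.size] at hsize ⊢
          omega
        · rw [hY, X_reroot]

/-! scaling -/

theorem M_scale (x : Fin q → ℝ) (t : ℝ) (F : B) (i : Fin q) :
    M (fun j => t * x j) F i = t ^ F.size * M x F i := by
  induction F generalizing i with
  | nil => simp [M_nil, B.size]
  | cons c s ihc ihs =>
    rw [M_cons, M_cons, ihs]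
    have : ∑ j ∈ univ.erase i, t * x j * M (fun j => t * x j) c j =
        t * t ^ c.size * ∑ j ∈ univ.erase i, x j * M x c j := by
      rw [mul_sum]
      exact sum_congr rfl fun j _ => by rw [ihc]; ring
    rw [this]
    simp only [B.size, pow_add, pow_one]
    ring

theorem X_scale (x : Fin q → ℝ) (t : ℝ) (F : B) :
    X (fun j => t * x j) (fun j => t * x j) F = t ^ (F.size + 1) * X x x F := by
  rw [X, X, mul_sum]
  refine sum_congr rfl fun i _ => ?_
  rw [M_scale, pow_succ]
  ring

end Pool.Agent.Helper56.HLA
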