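import Pool.Agent.Helper66.HL.Cone

/-!
Trees whose branch vertices lie in one class (copied from the hand-in OneClass of helper66).
-/

set_option autoImplicit false

namespace Pool.Agent.Helper56.HLA.One

open Pool.Agent.Helper6.HL Pool.Agent.Helper66.HL Finset Classical

/-- all children are in the branch class -/
def AllGood : B → Prop
  | .nil => True
  | .cons c s => Good true c ∧ AllGood s

theorem good_false_of {F : B} (h : AllGood F) (hk : kids F ≤ 1) : Good false F := by
  cases F with
  | nil => trivial
  | cons c s =>
    rw [good_false_cons]
    refine ⟨h.1, ?_⟩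
    cases s with
    | nil => rfl
    | cons d t => simp [kids] at hk

/-- local condition at a vertex: `b` its class, `k` its remaining degree, `F` its decoration -/
def R (b : Bool) (k : ℕ) (F : B) : Prop :=
  if b = true then Good true F else AllGood F ∧ k + kids F ≤ 2

theorem R_step (a b : Bool) (k : ℕ) (F G : B) (hab : a ≠ b) (hF : R a (k + 1) F) (hG : R b 1 G) :
    R a k (.cons G F) := by
  cases a with
  | true =>
    have hb : b = false := by cases b <;> simp_all
    subst hb
    simp only [R, if_true] at hF ⊢
    simp only [R, Bool.false_eq_true, if_false] at hG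
    exact ⟨good_false_of hG.1 (by omega), hF⟩
  | false =>
    have hb : b = true := by cases b <;> simp_all
    subst hb
    simp only [R, if_true] at hG
    simp only [R, Bool.false_eq_true, if_false] at hF ⊢
    refine ⟨⟨hG, hF.1⟩, ?_⟩
    simp only [kids]
    omega

theorem main {q : ℕ} {w : Fin q → ℝ} (hw : ∀ i, 0 ≤ w i) (b : Bool) (F : B) (hF : R b 0 F) :
    X w w (B.path F.size) ≤ X w w F := by
  have key : ∀ F : B, Good true F → X w w (B.path F.size) ≤ X w w F := fun F h => by
    rw [X_eq_br', X_eq_br']
    exact good_main hw _ F le_rfl h _ Dec.one
  cases b with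
  | true =>
    simp only [R, if_true] at hF
    exact key F hF
  | false =>
    simp only [R, Bool.false_eq_true, if_false] at hF
    cases F with
    | nil => exact le_rfl
    | cons c s =>
      rw [X_reroot, show (B.cons c s).size = (B.cons s c).size by simp only [B.size]; ring]
      refine key _ ⟨good_false_of hF.1.2 ?_, hF.1.1⟩
      simp only [kids] at hF
      omega

/-- If all vertices of degree at least three of a tree `T` lie in one class of its bipartition,
then every complete multipartite graph has at least as many homomorphisms from `T` as from the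
path with the same number of vertices. -/
theorem one_class :
    ∀ (r : ℕ) (W : Type) [Fintype W] (p : W → Fin r) (n : ℕ) (T : SimpleGraph (Fin n))
      [DecidableRel T.Adj], T.IsTree → ∀ c : T.Coloring Bool,
      (∀ v, 3 ≤ T.degree v → c v = true) →
        Nat.card {f : Fin n → W // ∀ u v : Fin n,
            (SimpleGraph.pathGraph n).Adj u v → p (f u) ≠ p (f v)}
          ≤ Nat.card {f : Fin n → W // ∀ u v : Fin n, T.Adj u v → p (f u) ≠ p (f v)} := by
  intro r W _ p n T _ hT c hc
  have hn : n ≠ 0 := by
    rintro rfl
    exact (hT.connected.nonempty.some).elim0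
  obtain ⟨m, rfl⟩ := Nat.exists_eq_succ_of_ne_zero hn
  set w : Fin r → ℝ := fun i => (Nat.card {x : W // p x = i} : ℝ) with hw
  have hw0 : ∀ i, 0 ≤ w i := fun i => Nat.cast_nonneg _
  obtain ⟨a, H, h0, h1, h2⟩ := exists_code w Bool (fun a b => a ≠ b) R
    (fun a b k F G => R_step a b k F G) m (Fin (m + 1)) T (fun v => c v) (by simp) hT
    (fun x y hxy => c.valid hxy) (fun _ => .nil) (by
      intro v
      by_cases hv : c v = true
      · simp only [R, hv, if_true]; trivial
      · have hv' : c v = false := by simpa using hv
        simp only [R, hv', Bool.false_eq_true, if_false]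
        refine ⟨trivial, ?_⟩
        have : deg T v = T.degree v := by
          rw [deg, ← SimpleGraph.card_neighborFinset_eq_degree]
          congr 1
          ext x
          simp
        simp only [kids, this]
        by_contra h
        exact hv (hc v (by omega)))
  have hsize : H.size = m := by
    have : ∑ v : Fin (m + 1), ((B.nil : B).size + 1) = m + 1 := by simp [B.size]
    omega
  have h3 := main hw0 a H h0
  rw [hsize] at h3
  have e1 := card_eq_Y p T
  have e2 := card_eq_Y p (SimpleGraph.pathGraph (m + 1))
  have e3 : Y T (fun _ i => w i) = X w w H := by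
    rw [← h2]
    simp [M_nil]
  rw [e3] at e1
  rw [Y_path'] at e2
  rw [← e1, ← e2] at h3
  exact_mod_cast h3

end Pool.Agent.Helper56.HLA.One
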