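import Pool.Agent.Helper56.HLA.Path
import Pool.Agent.Helper56.HLA.Code
import Pool.Agent.Helper56.HLA.One

/-!
The general reduction: if no part has more than half of the vertices, the Hoffman-London property
for all trees follows from one inequality for the normalised weights `x`
(`X x x (B.path 6) ≤ HH x * exp ((4 * LA x - 2 * LG x) / HH x)`).
-/

set_option autoImplicit false

namespace Pool.Agent.Helper56.HLA

open Pool.Agent.Helper6.HL Pool.Agent.Helper66.HL Finset Classical

variable {q : ℕ} {x : Fin q → ℝ}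

/-- `P` is a Markov operator, so its quadratic form is at least minus the square norm -/
theorem E_P_lower_one (h : Norm x) (u : Fin q → ℝ) :
    -(1 * E x (fun i => u i * u i)) ≤ E x (fun i => P x u i * u i) := by
  rw [E_P_mul h]
  have h1 : E x (fun i => u i * u i) =
      ∑ j, pp x j * (u j * u j) - ∑ j, pp x j ^ 2 * (u j * u j) := by
    rw [E, ← sum_sub_distrib]
    exact sum_congr rfl fun i _ => by rw [h.rho_eq]; ring
  have h2 : 0 ≤ ∑ i, ∑ j, (if i = j then 0 else pp x i * pp x j * (u i + u j) ^ 2) := by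
    refine sum_nonneg fun i _ => sum_nonneg fun j _ => ?_
    split_ifs
    · exact le_rfl
    · exact mul_nonneg (mul_nonneg (h.pp_nonneg i) (h.pp_nonneg j)) (sq_nonneg _)
  have h3 : ∑ i, ∑ j, (if i = j then 0 else pp x i * pp x j * (u i + u j) ^ 2) =
      2 * ∑ j, pp x j * (u j * u j) + 2 * ((∑ j, pp x j * u j) * ∑ j, pp x j * u j) -
        4 * ∑ j, pp x j ^ 2 * (u j * u j) := by
    have e1 : ∀ i, ∑ j, (if i = j then 0 else pp x i * pp x j * (u i + u j) ^ 2) =
        pp x i * (u i * u i) + 2 * (pp x i * u i) * (∑ j, pp x j * u j) +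
          pp x i * (∑ j, pp x j * (u j * u j)) - 4 * (pp x i ^ 2 * (u i * u i)) := by
      intro i
      have f1 : ∑ j, (if i = j then 0 else pp x i * pp x j * (u i + u j) ^ 2) =
          ∑ j, pp x i * pp x j * (u i + u j) ^ 2 - pp x i * pp x i * (u i + u i) ^ 2 := by
        rw [← Finset.sum_erase_add univ _ (mem_univ i),
          ← Finset.sum_erase_add univ (fun j => pp x i * pp x j * (u i + u j) ^ 2) (mem_univ i)]
        rw [if_pos rfl]
        have : ∑ j ∈ univ.erase i, (if i = j then 0 else pp x i * pp x j * (u i + u j) ^ 2) =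
            ∑ j ∈ univ.erase i, pp x i * pp x j * (u i + u j) ^ 2 :=
          sum_congr rfl fun j hj => if_neg (Finset.ne_of_mem_erase hj).symm
        rw [this]; ring
      have f2 : ∑ j, pp x i * pp x j * (u i + u j) ^ 2 =
          pp x i * (u i * u i) * (∑ j, pp x j) + 2 * (pp x i * u i) * (∑ j, pp x j * u j) +
          pp x i * (∑ j, pp x j * (u j * u j)) := by
        rw [mul_sum, mul_sum, mul_sum, ← sum_add_distrib, ← sum_add_distrib]
        exact sum_congr rfl fun j _ => by ring
      rw [f1, f2, h.pp_sum]; ring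
    rw [sum_congr rfl fun i _ => e1 i, sum_sub_distrib, sum_add_distrib, sum_add_distrib,
      ← sum_mul, ← sum_mul, ← mul_sum, ← mul_sum, h.pp_sum]
    ring
  rw [h3] at h2
  rw [h1]
  linarith

theorem E_Psq_one (h : Norm x) {u : Fin q → ℝ} (hu : E x u = 0) :
    E x (fun i => P x u i * P x u i) ≤ E x (fun i => u i * u i) := by
  set v : Fin q → ℝ := P x u with hv
  have hv0 : E x v = 0 := by rw [hv, E_P h, hu]
  have h1 : E x (fun i => v i + 1 * u i) = 0 := by
    rw [E_add, E_smul, hu, hv0]; ring
  have h2 := E_P_nonpos h h1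
  have h3 : E x (fun i => P x (fun i => v i + 1 * u i) i * (v i + 1 * u i)) =
      E x (fun i => P x v i * v i) + 2 * E x (fun i => v i * v i) +
        E x (fun i => P x u i * u i) := by
    have e1 : E x (fun i => P x v i * u i) = E x (fun i => v i * v i) := by
      rw [E_P_comm h]
    have e2 : E x (fun i => P x (fun i => v i + 1 * u i) i * (v i + 1 * u i)) =
        E x (fun i => P x v i * v i) + E x (fun i => P x v i * u i) +
        E x (fun i => P x u i * v i) + E x (fun i => P x u i * u i) := by
      rw [← E_add, ← E_add, ← E_add]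
      congr 1
      funext i
      rw [P_add, P_smul]
      ring
    rw [e2, e1, ← hv]
    ring
  rw [h3] at h2
  have h4 := E_P_lower_one h v
  have h5 := E_P_lower_one h u
  linarith

theorem X_path_anti (h : Norm x) (k : ℕ) :
    X x x (B.path (2 * (k + 1))) ≤ X x x (B.path (2 * k)) := by
  have h1 : 2 * (k + 1) = (k + 1) + (k + 1) := by ring
  have h2 : 2 * k = k + k := by ring
  rw [h1, X_path h, h2, X_path h]
  simp only [Function.iterate_succ_apply']
  have := E_Psq_one h (E_iter_zero h (E_uu h) k)
  linarith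

theorem X_path_le_six (h : Norm x) {m : ℕ} (hm : m % 2 = 1 ∨ 6 ≤ m) :
    X x x (B.path m) ≤ X x x (B.path 6) := by
  rcases Nat.even_or_odd' m with ⟨k, hk | hk⟩
  · have h6 : 3 ≤ k := by omega
    rw [hk]
    obtain ⟨j, rfl⟩ := Nat.exists_eq_add_of_le h6
    clear hk hm h6
    induction j with
    | zero => exact le_rfl
    | succ j ih => exact (X_path_anti h (3 + j)).trans ih
  · rw [hk]
    refine (X_path_even h k).trans ?_
    have : X x x (B.path 6) = 1 / HH x +
      E x (fun i => ((P x)^[3] (uu x)) i * ((P x)^[3] (uu x)) i) := X_path h 3 3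
    rw [this]
    have := E_sq_nonneg h ((P x)^[3] (uu x))
    linarith

/-- the analytic condition on normalised weights -/
def Cond (x : Fin q → ℝ) : Prop :=
  X x x (B.path 6) ≤ HH x * Real.exp ((4 * LA x - 2 * LG x) / HH x)

theorem norm_of_cond (h : Norm x) (hC : Cond x) (F : B) (hF : 4 ≤ lf F)
    (hn : F.size % 2 = 1 ∨ 6 ≤ F.size) : X x x (B.path F.size) ≤ X x x F :=
  (X_path_le_six h hn).trans (hC.trans (X_lower h F hF))

/-- normalisation of the weights, if no weight exceeds half of the sum -/
theorem exists_norm_half {w : Fin q → ℝ} (hw : ∀ i, 0 ≤ w i) (hpos : 0 < ∑ l, w l)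
    (h2 : ∀ i, 2 * w i ≤ ∑ l, w l) :
    ∃ t : ℝ, 0 < t ∧ ∃ x : Fin q → ℝ, (w = fun j => t * x j) ∧ Norm x := by
  set N := ∑ l, w l with hN
  have hcont : ContinuousOn (fun t : ℝ => ∑ i, w i / (t + w i)) (Set.Icc (1 / 2 * N) N) := by
    refine continuousOn_finsetSum _ fun i _ => ?_
    refine ContinuousOn.div continuousOn_const (continuousOn_id.add continuousOn_const) ?_
    intro t ht
    have h1 := ht.1
    have h2 := hw i
    have : 0 < t + w i := by linarith
    exact this.ne'
  have hle : 1 / 2 * N ≤ N := by linarith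
  have h1 : 1 ≤ ∑ i, w i / (1 / 2 * N + w i) := by
    have h3 : ∑ i, w i / N = 1 := by rw [← sum_div]; exact div_self hpos.ne'
    refine h3.ge.trans (sum_le_sum fun i _ => div_le_div_of_nonneg_left (hw i) ?_ ?_)
    · have := hw i; linarith
    · have := h2 i; linarith
  have h2 : ∑ i, w i / (N + w i) ≤ 1 := by
    have : ∑ i, w i / N = 1 := by rw [← sum_div]; exact div_self hpos.ne'
    rw [← this]
    refine sum_le_sum fun i _ => div_le_div_of_nonneg_left (hw i) hpos ?_
    have := hw i; linarith
  obtain ⟨t, ht, hsum⟩ := intermediate_value_Icc' hle hcont (Set.mem_Icc.2 ⟨h2, h1⟩)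
  have ht0 : 0 < t := by have := ht.1; linarith
  refine ⟨t, ht0, fun i => w i / t, ?_, ⟨fun i => div_nonneg (hw i) ht0.le, ?_⟩⟩
  · funext j
    rw [mul_div_cancel₀ _ ht0.ne']
  · refine Eq.trans (sum_congr rfl fun i _ => ?_) hsum
    have := hw i
    have : t + w i ≠ 0 := by positivity
    field_simp

/-- the Hoffman-London property for all trees from the analytic condition -/
theorem hl_of_cond (r : ℕ) (W : Type) [Fintype W] (p : W → Fin r)
    (h2 : ∀ i, 2 * Nat.card {x : W // p x = i} ≤ Fintype.card W)
    (hC : ∀ (t : ℝ) (x : Fin r → ℝ), 0 < t → Norm x →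
      (∀ i, (Nat.card {x : W // p x = i} : ℝ) = t * x i) → Cond x)
    (n : ℕ) (T : SimpleGraph (Fin n)) (hT : T.IsTree) :
    Nat.card {f : Fin n → W // ∀ u v : Fin n,
        (SimpleGraph.pathGraph n).Adj u v → p (f u) ≠ p (f v)}
      ≤ Nat.card {f : Fin n → W // ∀ u v : Fin n, T.Adj u v → p (f u) ≠ p (f v)} := by
  have hn : n ≠ 0 := by
    rintro rfl
    exact (hT.connected.nonempty.some).elim0
  obtain ⟨m, rfl⟩ := Nat.exists_eq_succ_of_ne_zero hn
  have c0 : T.Coloring (Fin 2) := hT.coloringTwo
  by_cases hbr : ∃ u v : Fin (m + 1), u ≠ v ∧ 3 ≤ T.degree u ∧ 3 ≤ T.degree v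
  · obtain ⟨u, v, huv, hu, hv⟩ := hbr
    set w : Fin r → ℝ := fun i => (Nat.card {x : W // p x = i} : ℝ) with hw
    have hw0 : ∀ i, 0 ≤ w i := fun i => Nat.cast_nonneg _
    have hsum : ∑ i, w i = (Fintype.card W : ℝ) := by
      have h1 : (Finset.univ : Finset W).card = ∑ i, (univ.filter fun x => p x = i).card :=
        Finset.card_eq_sum_card_fiberwise fun x _ => mem_coe.2 (mem_univ _)
      rw [← Finset.card_univ, h1, Nat.cast_sum]
      refine sum_congr rfl fun i _ => ?_
      rw [hw]
      simp only [Nat.card_eq_fintype_card, Fintype.card_subtype]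
    have h2' : ∀ i, 2 * w i ≤ ∑ l, w l := fun i => by
      rw [hsum]
      show 2 * (Nat.card {x : W // p x = i} : ℝ) ≤ (Fintype.card W : ℝ)
      exact_mod_cast h2 i
    obtain ⟨hm, H, hH, hsize, hY⟩ := code_four w m T hT u v huv hu hv
    have h3 : X w w (B.path H.size) ≤ X w w H := by
      rcases (sum_nonneg fun i (_ : i ∈ (univ : Finset (Fin r))) => hw0 i).lt_or_eq with h0 | h0
      · obtain ⟨t, ht, x, hwx, hx⟩ := exists_norm_half hw0 h0 h2'
        have hc : Cond x := hC t x ht hx fun i => congrFun hwx i
        rw [hwx, X_scale, X_scale, B.size_path]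
        refine mul_le_mul_of_nonneg_left ?_ (by positivity)
        exact norm_of_cond hx hc H hH (by omega)
      · have h1 := (sum_eq_zero_iff_of_nonneg fun i _ => hw0 i).1 h0.symm
        have h2 : ∀ G : B, X w w G = 0 := fun G =>
          sum_eq_zero fun i hi => by rw [h1 i hi, zero_mul]
        rw [h2, h2]
    rw [hsize] at h3
    have e1 := card_eq_Y p T
    have e2 := card_eq_Y p (SimpleGraph.pathGraph (m + 1))
    rw [hY] at e1
    rw [Y_path'] at e2
    rw [← e1, ← e2] at h3
    exact_mod_cast h3
  · push Not at hbr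
    by_cases h1 : ∃ u, 3 ≤ T.degree u
    · obtain ⟨u, hu⟩ := h1
      refine One.one_class r W p (m + 1) T hT
        (SimpleGraph.Coloring.mk (fun v => decide (c0 v = c0 u)) ?_) ?_
      · intro a b hab
        have h2 := c0.valid hab
        by_cases h3 : c0 a = c0 u
        · have h4 : c0 b ≠ c0 u := fun h => h2 (h3.trans h.symm)
          simp [h3, h4]
        · have h4 : c0 b = c0 u := by omega
          simp [h3, h4]
      · intro v hv
        have h2 : u = v := by
          by_contra hne
          have := hbr u v hne hu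
          omega
        subst h2
        show decide (c0 u = c0 u) = true
        simp
    · push Not at h1
      refine One.one_class r W p (m + 1) T hT
        (SimpleGraph.Coloring.mk (fun v => decide (c0 v = 0)) ?_) ?_
      · intro a b hab
        have h2 := c0.valid hab
        by_cases h3 : c0 a = 0
        · have h4 : c0 b ≠ 0 := fun h => h2 (h3.trans h.symm)
          simp [h3, h4]
        · have h4 : c0 b = 0 := by omega
          simp [h3, h4]
      · intro v hv
        have := h1 v
        omega

end Pool.Agent.Helper56.HLA
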