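import Mathlib

/-!
Second order bounds for the logarithm.
-/

set_option autoImplicit false

namespace Pool.Agent.Helper56.HLA

open Real

theorem log_le_half {t : ℝ} (ht : 1 ≤ t) : log t ≤ (t - 1 / t) / 2 := by
  have h0 : 0 < t := by linarith
  have h1 : 0 ≤ log t := log_nonneg ht
  have h2 := self_le_sinh_iff.2 h1
  rw [sinh_eq, exp_neg, exp_log h0] at h2
  rw [one_div]
  exact h2

theorem half_le_log {t : ℝ} (h0 : 0 < t) (ht : t ≤ 1) : (t - 1 / t) / 2 ≤ log t := by
  have h1 : 1 ≤ 1 / t := by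
    rw [le_div_iff₀ h0]; linarith
  have h2 := log_le_half h1
  rw [one_div, log_inv, one_div, inv_inv] at h2
  rw [one_div]
  linarith

theorem log_le_sq_of_le_one {t : ℝ} (h0 : 0 < t) (ht : t ≤ 1) :
    log t ≤ (t - 1) - (t - 1) ^ 2 / 2 := by
  have hs : |1 - t| < 1 := by rw [abs_lt]; constructor <;> linarith
  have h1 := hasSum_pow_div_log_of_abs_lt_one hs
  have h2 := sum_le_hasSum (Finset.range 2) (fun n _ => by
    have : 0 ≤ 1 - t := by linarith
    positivity) h1
  have h3 : 1 - (1 - t) = t := by ring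
  rw [h3] at h2
  simp [Finset.sum_range_succ] at h2
  nlinarith [h2]

theorem sq_le_log_of_one_le {t : ℝ} (ht : 1 ≤ t) :
    (t - 1) - (t - 1) ^ 2 / 2 ≤ log t := by
  have h1 := le_log_one_add_of_nonneg (x := t - 1) (by linarith)
  have h2 : 1 + (t - 1) = t := by ring
  rw [h2] at h1
  refine le_trans ?_ h1
  rw [le_div_iff₀ (by linarith)]
  nlinarith [mul_nonneg (sub_nonneg.2 ht) (sq_nonneg (t - 1))]

/-- upper bound for the logarithm -/
theorem log_upper {t R : ℝ} (h0 : 0 < t) (hR : 1 ≤ R) (ht : t ≤ R) :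
    log t ≤ (t - 1) - (t - 1) ^ 2 / (2 * R) := by
  have hR0 : 0 < R := by linarith
  rcases le_total t 1 with h | h
  · refine (log_le_sq_of_le_one h0 h).trans ?_
    have : (t - 1) ^ 2 / (2 * R) ≤ (t - 1) ^ 2 / 2 :=
      div_le_div_of_nonneg_left (sq_nonneg _) (by norm_num) (by linarith)
    linarith
  · refine (log_le_half h).trans ?_
    have h1 : (t - 1 / t) / 2 = (t - 1) - (t - 1) ^ 2 / (2 * t) := by
      field_simp; ring
    rw [h1]
    have : (t - 1) ^ 2 / (2 * R) ≤ (t - 1) ^ 2 / (2 * t) :=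
      div_le_div_of_nonneg_left (sq_nonneg _) (by linarith) (by linarith)
    linarith

/-- lower bound for the logarithm -/
theorem log_lower {t r : ℝ} (hr0 : 0 < r) (hr : r ≤ 1) (ht : r ≤ t) :
    (t - 1) - (t - 1) ^ 2 / (2 * r) ≤ log t := by
  have h0 : 0 < t := by linarith
  rcases le_total t 1 with h | h
  · refine le_trans ?_ (half_le_log h0 h)
    have h1 : (t - 1 / t) / 2 = (t - 1) - (t - 1) ^ 2 / (2 * t) := by
      field_simp; ring
    rw [h1]
    have : (t - 1) ^ 2 / (2 * t) ≤ (t - 1) ^ 2 / (2 * r) :=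
      div_le_div_of_nonneg_left (sq_nonneg _) (by linarith) (by linarith)
    linarith
  · refine le_trans ?_ (sq_le_log_of_one_le h)
    have : (t - 1) ^ 2 / 2 ≤ (t - 1) ^ 2 / (2 * r) :=
      div_le_div_of_nonneg_left (sq_nonneg _) (by linarith) (by linarith)
    linarith

end Pool.Agent.Helper56.HLA
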