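import Pool.Agent.Helper56.HLA.Op
import Pool.Agent.Helper56.HLA.Logs

/-!
Bounds for paths, and the comparison with trees that have at least four leaves.
-/

set_option autoImplicit false

namespace Pool.Agent.Helper56.HLA

open Pool.Agent.Helper6.HL Pool.Agent.Helper66.HL Finset Classical

variable {q : ℕ} {x : Fin q → ℝ}

theorem E_add (f k : Fin q → ℝ) : E x (fun i => f i + k i) = E x f + E x k := by
  rw [E, E, E, ← sum_add_distrib]
  exact sum_congr rfl fun i _ => by ring

theorem E_sub (f k : Fin q → ℝ) : E x (fun i => f i - k i) = E x f - E x k := by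
  rw [E, E, E, ← sum_sub_distrib]
  exact sum_congr rfl fun i _ => by ring

theorem E_smul (c : ℝ) (f : Fin q → ℝ) : E x (fun i => c * f i) = c * E x f := by
  rw [E, E, mul_sum]
  exact sum_congr rfl fun i _ => by ring

theorem E_const (c : ℝ) : E x (fun _ => c) = c * HH x := by
  rw [E, HH, mul_sum]
  exact sum_congr rfl fun i _ => by ring

theorem E_mono (h : Norm x) {f k : Fin q → ℝ} (hfk : ∀ i, f i ≤ k i) : E x f ≤ E x k :=
  sum_le_sum fun i _ => mul_le_mul_of_nonneg_left (hfk i) (h.rho_nonneg i)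

theorem E_sq_nonneg (h : Norm x) (f : Fin q → ℝ) : 0 ≤ E x (fun i => f i * f i) :=
  sum_nonneg fun i _ => mul_nonneg (h.rho_nonneg i) (mul_self_nonneg _)

theorem P_add (f k : Fin q → ℝ) (i : Fin q) : P x (fun j => f j + k j) i = P x f i + P x k i := by
  have : ∑ j, pp x j * (f j + k j) = ∑ j, pp x j * f j + ∑ j, pp x j * k j := by
    rw [← sum_add_distrib]; exact sum_congr rfl fun j _ => by ring
  rw [P, P, P, this]; ring

theorem P_smul (c : ℝ) (f : Fin q → ℝ) (i : Fin q) : P x (fun j => c * f j) i = c * P x f i := by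
  have : ∑ j, pp x j * (c * f j) = c * ∑ j, pp x j * f j := by
    rw [mul_sum]; exact sum_congr rfl fun j _ => by ring
  rw [P, P, this]; ring

/-- on mean zero functions `P` is negative semidefinite -/
theorem E_P_nonpos (h : Norm x) {u : Fin q → ℝ} (hu : E x u = 0) :
    E x (fun i => P x u i * u i) ≤ 0 := by
  rw [E_P_mul h]
  have h1 : ∑ j, pp x j * u j = ∑ j, pp x j * (pp x j * u j) := by
    have h2 : E x u = ∑ j, pp x j * u j - ∑ j, pp x j * (pp x j * u j) := by
      rw [E, ← sum_sub_distrib]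
      exact sum_congr rfl fun i _ => by rw [h.rho_eq]; ring
    rw [hu] at h2; linarith
  have h2 : (∑ j, pp x j * (pp x j * u j)) ^ 2 ≤
      (∑ j, pp x j ^ 2) * ∑ j, (pp x j * u j) ^ 2 :=
    Finset.sum_mul_sq_le_sq_mul_sq _ _ _
  have h3 : ∑ j, pp x j ^ 2 ≤ 1 := by
    rw [← h.pp_sum]
    refine sum_le_sum fun j _ => ?_
    have h4 := h.pp_nonneg j
    have h5 := (h.pp_lt_one j).le
    nlinarith
  have h4 : 0 ≤ ∑ j, (pp x j * u j) ^ 2 := sum_nonneg fun j _ => sq_nonneg _
  have h5 : ∑ j, pp x j ^ 2 * (u j * u j) = ∑ j, (pp x j * u j) ^ 2 :=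
    sum_congr rfl fun j _ => by ring
  rw [h5, h1]
  nlinarith [mul_nonneg (sub_nonneg.2 h3) h4]

/-- lower bound for the quadratic form of `P` -/
theorem E_P_lower (h : Norm x) {a : ℝ} (ha : ∀ i, x i ≤ a) (u : Fin q → ℝ) :
    -(a * E x (fun i => u i * u i)) ≤ E x (fun i => P x u i * u i) := by
  rw [E_P_mul h]
  have h1 : ∑ j, pp x j ^ 2 * (u j * u j) ≤ a * E x (fun i => u i * u i) := by
    rw [E, mul_sum]
    refine sum_le_sum fun j _ => ?_
    rw [← h.rho_mul_x]
    have h2 : 0 ≤ rho x j * (u j * u j) := mul_nonneg (h.rho_nonneg j) (mul_self_nonneg _)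
    nlinarith [mul_le_mul_of_nonneg_right (ha j) h2]
  nlinarith [mul_self_nonneg (∑ j, pp x j * u j)]

theorem E_Psq (h : Norm x) {a : ℝ} (ha0 : 0 ≤ a) (ha : ∀ i, x i ≤ a) {u : Fin q → ℝ}
    (hu : E x u = 0) :
    E x (fun i => P x u i * P x u i) ≤ a ^ 2 * E x (fun i => u i * u i) := by
  rcases ha0.eq_or_lt with h0 | h0
  · exfalso
    have h1 : ∑ i, pp x i = 0 := sum_eq_zero fun i _ => by
      have : x i = 0 := le_antisymm (by rw [h0]; exact ha i) (h.nonneg i)
      rw [pp, this, zero_div]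
    rw [h.pp_sum] at h1
    exact one_ne_zero h1
  set v : Fin q → ℝ := P x u with hv
  have hv0 : E x v = 0 := by rw [hv, E_P h, hu]
  -- apply negativity to `v + a u`
  have h1 : E x (fun i => v i + a * u i) = 0 := by
    rw [E_add, E_smul, hu, hv0]; ring
  have h2 := E_P_nonpos h h1
  have h3 : E x (fun i => P x (fun i => v i + a * u i) i * (v i + a * u i)) =
      E x (fun i => P x v i * v i) + 2 * a * E x (fun i => v i * v i) +
        a ^ 2 * E x (fun i => P x u i * u i) := by
    have e1 : E x (fun i => P x v i * u i) = E x (fun i => v i * v i) := by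
      rw [E_P_comm h]
    have e2 : E x (fun i => P x (fun i => v i + a * u i) i * (v i + a * u i)) =
        E x (fun i => P x v i * v i) + a * E x (fun i => P x v i * u i) +
        a * E x (fun i => P x u i * v i) + a ^ 2 * E x (fun i => P x u i * u i) := by
      rw [← E_smul, ← E_smul, ← E_smul, ← E_add, ← E_add, ← E_add]
      congr 1
      funext i
      rw [P_add, P_smul]
      ring
    rw [e2, e1, ← hv]
    ring
  rw [h3] at h2
  have h4 := E_P_lower h ha v
  have h5 := E_P_lower h ha u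
  have h6 : 0 ≤ E x (fun i => v i * v i) := E_sq_nonneg h v
  have h7 := mul_le_mul_of_nonneg_left h5 (sq_nonneg a)
  have h8 : a * E x (fun i => v i * v i) ≤ a * (a ^ 2 * E x (fun i => u i * u i)) := by
    nlinarith
  exact le_of_mul_le_mul_left h8 h0

/-- the iterates of `P` -/
theorem E_iter_zero (h : Norm x) {u : Fin q → ℝ} (hu : E x u = 0) (k : ℕ) :
    E x ((P x)^[k] u) = 0 := by
  induction k with
  | zero => exact hu
  | succ k ih => rw [Function.iterate_succ_apply', E_P h, ih]

theorem E_iter_sq (h : Norm x) {a : ℝ} (ha0 : 0 ≤ a) (ha : ∀ i, x i ≤ a) {u : Fin q → ℝ}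
    (hu : E x u = 0) (k : ℕ) :
    E x (fun i => ((P x)^[k] u) i * ((P x)^[k] u) i) ≤ a ^ (2 * k) * E x (fun i => u i * u i) := by
  induction k with
  | zero => simp
  | succ k ih =>
    simp only [Function.iterate_succ_apply']
    refine (E_Psq h ha0 ha (E_iter_zero h hu k)).trans ?_
    refine (mul_le_mul_of_nonneg_left ih (sq_nonneg a)).trans (le_of_eq ?_)
    ring

/-- the centred `g` -/
noncomputable def uu (x : Fin q → ℝ) (i : Fin q) : ℝ := (1 + x i) - 1 / HH x

theorem E_uu (h : Norm x) : E x (uu x) = 0 := by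
  have h1 : E x (uu x) = E x (fun i => 1 + x i) - E x (fun _ => 1 / HH x) := by
    rw [← E_sub]; rfl
  rw [h1, E_g h, E_const, one_div, inv_mul_cancel₀ (HH_pos h).ne']
  ring

/-- the variance of `g` (not normalised) -/
noncomputable def VV (x : Fin q → ℝ) : ℝ := E x (fun i => uu x i * uu x i)

theorem VV_nonneg (h : Norm x) : 0 ≤ VV x := E_sq_nonneg h _

theorem iter_P_g (h : Norm x) (k : ℕ) (i : Fin q) :
    (1 + x i) * ((K x)^[k] (fun _ => 1)) i = 1 / HH x + ((P x)^[k] (uu x)) i := by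
  induction k generalizing i with
  | zero => simp [uu]
  | succ k ih =>
    rw [Function.iterate_succ_apply', Function.iterate_succ_apply', ← P_K h]
    have h1 : (fun j => (1 + x j) * ((K x)^[k] (fun _ => 1)) j) =
        fun j => (1 / HH x) * (1 : ℝ) + ((P x)^[k] (uu x)) j := by
      funext j; rw [ih]; ring
    rw [h1, P_add, P_smul, P_one h, mul_one]

theorem X_path (h : Norm x) (a b : ℕ) :
    X x x (B.path (a + b)) = 1 / HH x +
      E x (fun i => ((P x)^[a] (uu x)) i * ((P x)^[b] (uu x)) i) := by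
  have h1 : X x x (B.path (a + b)) = br x ((K x)^[a] (fun _ => 1)) ((K x)^[b] (fun _ => 1)) := by
    rw [X_eq_br', M_path', Function.iterate_add_apply, ← br_K_iter]
  have h2 : br x ((K x)^[a] (fun _ => 1)) ((K x)^[b] (fun _ => 1)) =
      E x (fun i => (1 / HH x + ((P x)^[a] (uu x)) i) * (1 / HH x + ((P x)^[b] (uu x)) i)) := by
    rw [br, E]
    refine sum_congr rfl fun i _ => ?_
    rw [← iter_P_g h, ← iter_P_g h]
    conv_lhs => rw [← h.rho_mul_sq i]
    ring
  have h3 : E x (fun i => (1 / HH x + ((P x)^[a] (uu x)) i) * (1 / HH x + ((P x)^[b] (uu x)) i)) =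
      E x (fun _ => (1 / HH x) * (1 / HH x)) + (1 / HH x) * E x ((P x)^[a] (uu x)) +
      (1 / HH x) * E x ((P x)^[b] (uu x)) +
      E x (fun i => ((P x)^[a] (uu x)) i * ((P x)^[b] (uu x)) i) := by
    rw [← E_smul, ← E_smul, ← E_add, ← E_add, ← E_add]
    congr 1
    funext i
    ring
  rw [h1, h2, h3, E_iter_zero h (E_uu h), E_iter_zero h (E_uu h), E_const]
  have := (HH_pos h).ne'
  field_simp
  ring

/-- an odd number of edges -/
theorem X_path_even (h : Norm x) (k : ℕ) : X x x (B.path (2 * k + 1)) ≤ 1 / HH x := by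
  have h1 : 2 * k + 1 = (k + 1) + k := by ring
  rw [h1, X_path h]
  simp only [Function.iterate_succ_apply']
  have := E_P_nonpos h (E_iter_zero h (E_uu h) k)
  linarith

/-- an even number of edges -/
theorem X_path_odd (h : Norm x) {a : ℝ} (ha0 : 0 ≤ a) (ha : ∀ i, x i ≤ a) (k : ℕ) :
    X x x (B.path (2 * k)) ≤ 1 / HH x + a ^ (2 * k) * VV x := by
  have h1 : 2 * k = k + k := by ring
  rw [h1, X_path h, ← h1]
  have := E_iter_sq h ha0 ha (E_uu h) k
  rw [VV]
  linarith

/-! the two logarithmic averages -/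

theorem Pg (h : Norm x) (i : Fin q) :
    P x (fun j => 1 + x j) i = (1 + x i) * (∑ j, x j - x i) := by
  have h1 : ∑ j, pp x j * (1 + x j) = ∑ j, x j :=
    sum_congr rfl fun j _ => by rw [mul_comm, h.mul_pp]
  rw [P, h1]; ring

theorem Pg_eq (h : Norm x) (i : Fin q) :
    P x (fun j => 1 + x j) i = 1 / HH x + P x (uu x) i := by
  have h1 : (fun j => 1 + x j) = fun j => (1 / HH x) * (1 : ℝ) + uu x j := by
    funext j; rw [uu]; ring
  rw [h1, P_add, P_smul, P_one h, mul_one]

theorem LG_upper (h : Norm x) {a : ℝ} (ha : ∀ i, x i ≤ a) :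
    LG x ≤ HH x * Real.log (1 / HH x) - HH x * VV x / (2 * (1 + a)) := by
  have hH := HH_pos h
  have hH' : 0 < 1 / HH x := by positivity
  have hq : ∃ i : Fin q, True := by
    by_contra hcon
    have h1 : ∑ i, pp x i = 0 := sum_eq_zero fun i _ => absurd ⟨i, trivial⟩ hcon
    rw [h.pp_sum] at h1
    exact one_ne_zero h1
  obtain ⟨i0, _⟩ := hq
  have ha0 : 0 ≤ a := (h.nonneg i0).trans (ha i0)
  have hmu : 1 ≤ (1 + a) * HH x := by
    have h1 := E_mono h (f := fun i => 1 + x i) (k := fun _ => 1 + a)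
      (fun i => by have := ha i; linarith)
    rw [E_g h, E_const] at h1
    exact h1
  have hR : 1 ≤ (1 + a) * HH x := hmu
  have key : ∀ i, Real.log (1 + x i) ≤ Real.log (1 / HH x) + HH x * uu x i -
      (HH x / (2 * (1 + a))) * (uu x i * uu x i) := by
    intro i
    have h1 : 0 < (1 + x i) * HH x := mul_pos (h.pos i) hH
    have h2 : (1 + x i) * HH x ≤ (1 + a) * HH x :=
      mul_le_mul_of_nonneg_right (by have := ha i; linarith) hH.le
    have h3 := log_upper h1 hR h2
    have h4 : Real.log ((1 + x i) * HH x) = Real.log (1 + x i) - Real.log (1 / HH x) := by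
      rw [Real.log_mul (h.pos i).ne' hH.ne', one_div, Real.log_inv]; ring
    have h5 : (1 + x i) * HH x - 1 = HH x * uu x i := by
      rw [uu]; field_simp
    have h6 : ((1 + x i) * HH x - 1) ^ 2 / (2 * ((1 + a) * HH x)) =
        (HH x / (2 * (1 + a))) * (uu x i * uu x i) := by
      rw [h5]
      have : (1 + a) ≠ 0 := by linarith
      field_simp
    rw [h6, h5, h4] at h3
    linarith
  have h1 := E_mono h key
  rw [E_sub, E_add, E_const, E_smul, E_smul, E_uu h] at h1
  rw [LG]
  refine h1.trans (le_of_eq ?_)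
  rw [VV]
  ring

theorem LA_lower (h : Norm x) {a S : ℝ} (ha : ∀ i, x i ≤ a) (hS : ∑ j, x j = S)
    (hSa : S ≤ 1 + a) (haS : a < S) :
    HH x * Real.log (1 / HH x) - HH x * (a ^ 2 * VV x) / (2 * ((1 + a) * (S - a))) ≤ LA x := by
  have hH := HH_pos h
  have hH' : 0 < 1 / HH x := by positivity
  have hq : ∃ i : Fin q, True := by
    by_contra hcon
    have h1 : ∑ i, pp x i = 0 := sum_eq_zero fun i _ => absurd ⟨i, trivial⟩ hcon
    rw [h.pp_sum] at h1
    exact one_ne_zero h1
  obtain ⟨i0, _⟩ := hq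
  have ha0 : 0 ≤ a := (h.nonneg i0).trans (ha i0)
  set y : ℝ := (1 + a) * (S - a) with hy
  have hy0 : 0 < y := mul_pos (by linarith) (by linarith)
  have hyY : ∀ i, y ≤ P x (fun j => 1 + x j) i := by
    intro i
    rw [Pg h, hS, hy]
    have h1 : (1 + x i) * (S - x i) - (1 + a) * (S - a) = (a - x i) * (1 - S + a + x i) := by ring
    have h2 : 0 ≤ (a - x i) * (1 - S + a + x i) :=
      mul_nonneg (by have := ha i; linarith) (by have := h.nonneg i; linarith)
    linarith
  have hy1 : y * HH x ≤ 1 := by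
    have h1 := E_mono h hyY
    rw [E_const, E_P h, E_g h] at h1
    exact h1
  have key : ∀ i, Real.log (1 / HH x) + HH x * P x (uu x) i -
      (HH x / (2 * y)) * (P x (uu x) i * P x (uu x) i) ≤
      Real.log (P x (fun j => 1 + x j) i) := by
    intro i
    have h0 : 0 < P x (fun j => 1 + x j) i := P_pos h (fun j => h.pos j) i
    have h2 : y * HH x ≤ P x (fun j => 1 + x j) i * HH x :=
      mul_le_mul_of_nonneg_right (hyY i) hH.le
    have h3 := log_lower (mul_pos hy0 hH) hy1 h2
    have h4 : Real.log (P x (fun j => 1 + x j) i * HH x) =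
        Real.log (P x (fun j => 1 + x j) i) - Real.log (1 / HH x) := by
      rw [Real.log_mul h0.ne' hH.ne', one_div, Real.log_inv]; ring
    have h5 : P x (fun j => 1 + x j) i * HH x - 1 = HH x * P x (uu x) i := by
      rw [Pg_eq h]; field_simp; ring
    have h6 : (P x (fun j => 1 + x j) i * HH x - 1) ^ 2 / (2 * (y * HH x)) =
        (HH x / (2 * y)) * (P x (uu x) i * P x (uu x) i) := by
      rw [h5]
      field_simp
    rw [h6, h5, h4] at h3
    linarith
  have h1 := E_mono h key
  rw [E_sub, E_add, E_const, E_smul, E_smul, E_P h, E_uu h] at h1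
  rw [LA]
  refine le_trans ?_ h1
  have h2 := E_Psq h ha0 ha (E_uu h)
  have h3 : HH x / (2 * y) * E x (fun i => P x (uu x) i * P x (uu x) i) ≤
      HH x / (2 * y) * (a ^ 2 * VV x) := mul_le_mul_of_nonneg_left h2 (by positivity)
  have h4 : HH x / (2 * y) * (a ^ 2 * VV x) = HH x * (a ^ 2 * VV x) / (2 * y) := by ring
  rw [h4] at h3
  linarith

/-- `(1 + a) H ≤ 2 + a - S` -/
theorem HH_upper (h : Norm x) {a S : ℝ} (ha : ∀ i, x i ≤ a) (hS : ∑ j, x j = S) :
    (1 + a) * HH x ≤ 2 + a - S := by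
  have h1 : ∀ i, x i * pp x i = x i - pp x i := fun i => by
    have := h.mul_pp i; linarith
  have h2 : ∑ i, x i * pp x i = S - 1 := by
    rw [sum_congr rfl fun i _ => h1 i, sum_sub_distrib, hS, h.pp_sum]
  have h3 : ∑ i, x i * pp x i ≤ ∑ i, (1 + a) * (pp x i * pp x i) := by
    refine sum_le_sum fun i _ => ?_
    have h4 : x i ≤ (1 + a) * pp x i := by
      have := h.mul_pp i
      have h5 := mul_le_mul_of_nonneg_right (ha i) (h.pp_nonneg i)
      nlinarith
    have := mul_le_mul_of_nonneg_right h4 (h.pp_nonneg i)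
    linarith
  have h4 : HH x = 1 - ∑ i, pp x i * pp x i := by
    rw [HH, ← h.pp_sum, ← sum_sub_distrib]
    exact sum_congr rfl fun i _ => by rw [h.rho_eq]; ring
  rw [← mul_sum] at h3
  rw [h4]
  linarith

theorem S_le (h : Norm x) {a S : ℝ} (ha : ∀ i, x i ≤ a) (hS : ∑ j, x j = S) :
    S ≤ 1 + a := by
  have h1 : S ≤ ∑ i, (1 + a) * pp x i := by
    rw [← hS]
    refine sum_le_sum fun i _ => ?_
    have := h.mul_pp i
    have h5 := mul_le_mul_of_nonneg_right (ha i) (h.pp_nonneg i)
    nlinarith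
  rw [← mul_sum, h.pp_sum] at h1
  linarith

/-- the main inequality, for normalised weights -/
theorem norm_main (h : Norm x) {a S : ℝ} (ha : ∀ i, x i ≤ a) (hS : ∑ j, x j = S)
    (h25 : 5 * a ≤ 2 * S) (F : B) (hF : 4 ≤ lf F) (hn : F.size % 2 = 1 ∨ 6 ≤ F.size) :
    X x x (B.path F.size) ≤ X x x F := by
  have hH := HH_pos h
  have hH' : 0 < 1 / HH x := by positivity
  have hV := VV_nonneg h
  have hSa := S_le h ha hS
  have hS0 : 0 ≤ S := by rw [← hS]; exact sum_nonneg fun i _ => h.nonneg i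
  have ha0 : 0 ≤ a := by
    by_contra hcon
    have h1 : ∀ i, False := fun i => by
      have := h.nonneg i
      have := ha i
      linarith
    have h2 : ∑ i, pp x i = 0 := sum_eq_zero fun i _ => (h1 i).elim
    rw [h.pp_sum] at h2
    exact one_ne_zero h2
  have hS1 : 1 ≤ S := by
    rw [← hS, ← h.pp_sum]
    refine sum_le_sum fun i _ => ?_
    have := h.mul_pp i
    have h5 := mul_nonneg (h.nonneg i) (h.pp_nonneg i)
    linarith
  have haS : a < S := by linarith
  have ha23 : a ≤ 2 / 3 := by linarith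
  -- the exponent
  have h1 := LG_upper h ha
  have h2 := LA_lower h ha hS hSa haS
  have h3 := HH_upper h ha hS
  have h4 := X_lower h F hF
  set δ : ℝ := VV x / (1 + a) * (1 - 2 * a ^ 2 / (S - a)) with hδ
  have hsa : 0 < S - a := by linarith
  have h1a : 0 < 1 + a := by linarith
  have hexp : 2 * Real.log (1 / HH x) + δ ≤ (4 * LA x - 2 * LG x) / HH x := by
    rw [le_div_iff₀ hH]
    have e1 : δ * HH x = 2 * (HH x * VV x / (2 * (1 + a))) -
        4 * (HH x * (a ^ 2 * VV x) / (2 * ((1 + a) * (S - a)))) := by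
      rw [hδ]; field_simp; ring
    nlinarith
  have hδ2 : a ^ 6 * (VV x * HH x) ≤ δ := by
    have e1 : a ^ 6 * ((1 + a) * HH x) ≤ 1 - 2 * a ^ 2 / (S - a) := by
      have f1 : 2 * a ^ 2 / (S - a) ≤ 4 / 3 * a := by
        rw [div_le_iff₀ hsa]; nlinarith
      have f2 : a ^ 6 * ((1 + a) * HH x) ≤ a ^ 6 * (2 - 3 / 2 * a) :=
        mul_le_mul_of_nonneg_left (by linarith) (by positivity)
      have f3 : a ^ 5 ≤ (2 / 3) ^ 5 := pow_le_pow_left₀ ha0 ha23 5
      have f4 : a * (2 - 3 / 2 * a) ≤ 2 / 3 := by nlinarith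
      have f5 : 0 ≤ a * (2 - 3 / 2 * a) := mul_nonneg ha0 (by linarith)
      have f6 : a ^ 6 * (2 - 3 / 2 * a) ≤ (2 / 3) ^ 5 * (2 / 3) := by
        have : a ^ 6 * (2 - 3 / 2 * a) = a ^ 5 * (a * (2 - 3 / 2 * a)) := by ring
        rw [this]
        exact mul_le_mul f3 f4 f5 (by norm_num)
      have f7 : 4 / 3 * a ≤ 8 / 9 := by linarith
      norm_num at f6
      linarith
    have e2 := mul_le_mul_of_nonneg_left e1 (div_nonneg hV h1a.le)
    have e3 : VV x / (1 + a) * (a ^ 6 * ((1 + a) * HH x)) = a ^ 6 * (VV x * HH x) := by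
      field_simp
    rw [e3] at e2
    exact e2
  have h5 : 1 / HH x + a ^ 6 * VV x ≤ X x x F := by
    refine le_trans ?_ h4
    have e1 := Real.exp_le_exp.2 hexp
    rw [Real.exp_add, two_mul, Real.exp_add, Real.exp_log hH'] at e1
    have e2 : 1 + a ^ 6 * (VV x * HH x) ≤ Real.exp δ := by
      have := Real.add_one_le_exp δ
      linarith
    have e3 : HH x * ((1 / HH x * (1 / HH x)) * Real.exp δ) ≤
        HH x * Real.exp ((4 * LA x - 2 * LG x) / HH x) := mul_le_mul_of_nonneg_left e1 hH.le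
    refine le_trans ?_ e3
    have e4 : HH x * ((1 / HH x * (1 / HH x)) * Real.exp δ) = 1 / HH x * Real.exp δ := by
      field_simp
    rw [e4]
    have e5 := mul_le_mul_of_nonneg_left e2 hH'.le
    refine le_trans (le_of_eq ?_) e5
    field_simp
  rcases Nat.even_or_odd' F.size with ⟨k, hk | hk⟩
  · have h6 : 6 ≤ F.size := by omega
    refine le_trans ?_ h5
    rw [hk] at h6 ⊢
    refine (X_path_odd h ha0 ha k).trans ?_
    have : a ^ (2 * k) ≤ a ^ 6 := pow_le_pow_of_le_one ha0 (by linarith) h6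
    have := mul_le_mul_of_nonneg_right this hV
    linarith
  · rw [hk]
    refine (X_path_even h k).trans ?_
    refine le_trans ?_ h5
    have : 0 ≤ a ^ 6 * VV x := by positivity
    linarith

end Pool.Agent.Helper56.HLA
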