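import Pool.Agent.Helper56.HLA.Path
import Pool.Agent.Helper56.HLA.Code
import Pool.Agent.Helper56.HLA.One

set_option autoImplicit false

namespace Pool.Agent.Helper56.HLA.TwoFifths

open Pool.Agent.Helper6.HL Pool.Agent.Helper66.HL Pool.Agent.Helper56.HLA Finset Classical

variable {q : ℕ}

/-- normalisation of the weights -/
theorem exists_norm {w : Fin q → ℝ} (hw : ∀ i, 0 ≤ w i) (hpos : 0 < ∑ l, w l)
    (h25 : ∀ i, 5 * w i ≤ 2 * ∑ l, w l) :
    ∃ t : ℝ, 0 < t ∧ ∃ x : Fin q → ℝ, (w = fun j => t * x j) ∧ Norm x ∧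
      ∀ i, 5 * x i ≤ 2 * ∑ l, x l := by
  set N := ∑ l, w l with hN
  have hcont : ContinuousOn (fun t : ℝ => ∑ i, w i / (t + w i)) (Set.Icc (3 / 5 * N) N) := by
    refine continuousOn_finsetSum _ fun i _ => ?_
    refine ContinuousOn.div continuousOn_const (continuousOn_id.add continuousOn_const) ?_
    intro t ht
    have h1 := ht.1
    have h2 := hw i
    have : 0 < t + w i := by linarith
    exact this.ne'
  have hle : 3 / 5 * N ≤ N := by linarith
  have h1 : 1 ≤ ∑ i, w i / (3 / 5 * N + w i) := by
    have : ∑ i, w i / N = 1 := by rw [← sum_div]; exact div_self hpos.ne'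
    rw [← this]
    refine sum_le_sum fun i _ => div_le_div_of_nonneg_left (hw i) ?_ ?_
    · have := hw i; linarith
    · have := h25 i; linarith
  have h2 : ∑ i, w i / (N + w i) ≤ 1 := by
    have : ∑ i, w i / N = 1 := by rw [← sum_div]; exact div_self hpos.ne'
    rw [← this]
    refine sum_le_sum fun i _ => div_le_div_of_nonneg_left (hw i) hpos ?_
    have := hw i; linarith
  obtain ⟨t, ht, hsum⟩ := intermediate_value_Icc' hle hcont (Set.mem_Icc.2 ⟨h2, h1⟩)
  have ht0 : 0 < t := by have := ht.1; linarith
  refine ⟨t, ht0, fun i => w i / t, ?_, ⟨fun i => div_nonneg (hw i) ht0.le, ?_⟩, fun i => ?_⟩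
  · funext j
    rw [mul_div_cancel₀ _ ht0.ne']
  · refine Eq.trans (sum_congr rfl fun i _ => ?_) hsum
    have := hw i
    have : t + w i ≠ 0 := by positivity
    field_simp
  · rw [← sum_div, mul_div_assoc', mul_div_assoc']
    exact div_le_div_of_nonneg_right (h25 i) ht0.le

theorem main {w : Fin q → ℝ} (hw : ∀ i, 0 ≤ w i) (h25 : ∀ i, 5 * w i ≤ 2 * ∑ l, w l)
    (F : B) (hF : 4 ≤ lf F) (hn : 5 ≤ F.size) : X w w (B.path F.size) ≤ X w w F := by
  rcases (sum_nonneg fun i (_ : i ∈ (univ : Finset (Fin q))) => hw i).lt_or_eq with h0 | h0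
  · obtain ⟨t, ht, x, rfl, hx, h25x⟩ := exists_norm hw h0 h25
    rw [X_scale, X_scale, B.size_path]
    refine mul_le_mul_of_nonneg_left ?_ (by positivity)
    refine norm_main hx (a := 2 / 5 * ∑ l, x l) (fun i => ?_) rfl (by linarith) F hF ?_
    · have := h25x i; linarith
    · omega
  · have h1 := (sum_eq_zero_iff_of_nonneg fun i _ => hw i).1 h0.symm
    have h2 : ∀ G : B, X w w G = 0 := fun G => sum_eq_zero fun i hi => by rw [h1 i hi, zero_mul]
    rw [h2, h2]

/-- If the largest part of a complete multipartite graph has at most two fifths of the vertices,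
then the graph is Hoffman-London: no tree has fewer homomorphisms to it than the path. -/
theorem result :
    ∀ (r : ℕ) (W : Type) [Fintype W] (p : W → Fin r),
      (∀ i, 5 * Nat.card {x : W // p x = i} ≤ 2 * Fintype.card W) →
      ∀ (n : ℕ) (T : SimpleGraph (Fin n)), T.IsTree →
        Nat.card {f : Fin n → W // ∀ u v : Fin n,
            (SimpleGraph.pathGraph n).Adj u v → p (f u) ≠ p (f v)}
          ≤ Nat.card {f : Fin n → W // ∀ u v : Fin n, T.Adj u v → p (f u) ≠ p (f v)} := by
  intro r W _ p hp n T hT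
  have hn : n ≠ 0 := by
    rintro rfl
    exact (hT.connected.nonempty.some).elim0
  obtain ⟨m, rfl⟩ := Nat.exists_eq_succ_of_ne_zero hn
  -- the colouring with two colours
  have c0 : T.Coloring (Fin 2) := hT.coloringTwo
  by_cases hbr : ∃ u v : Fin (m + 1), u ≠ v ∧ 3 ≤ T.degree u ∧ 3 ≤ T.degree v
  · obtain ⟨u, v, huv, hu, hv⟩ := hbr
    set w : Fin r → ℝ := fun i => (Nat.card {x : W // p x = i} : ℝ) with hw
    have hw0 : ∀ i, 0 ≤ w i := fun i => Nat.cast_nonneg _
    have hsum : ∑ i, w i = (Fintype.card W : ℝ) := by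
      have h1 : (Finset.univ : Finset W).card = ∑ i, (univ.filter fun x => p x = i).card :=
        Finset.card_eq_sum_card_fiberwise fun x _ => mem_coe.2 (mem_univ _)
      rw [← Finset.card_univ, h1, Nat.cast_sum]
      refine sum_congr rfl fun i _ => ?_
      rw [hw]
      simp only [Nat.card_eq_fintype_card, Fintype.card_subtype]
    have h25 : ∀ i, 5 * w i ≤ 2 * ∑ l, w l := fun i => by
      rw [hsum]
      show 5 * (Nat.card {x : W // p x = i} : ℝ) ≤ 2 * (Fintype.card W : ℝ)
      exact_mod_cast hp i
    obtain ⟨hm, H, hH, hsize, hY⟩ := code_four w m T hT u v huv hu hv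
    have h3 := main hw0 h25 H hH (by omega)
    rw [hsize] at h3
    have e1 := card_eq_Y p T
    have e2 := card_eq_Y p (SimpleGraph.pathGraph (m + 1))
    rw [hY] at e1
    rw [Y_path'] at e2
    rw [← e1, ← e2] at h3
    exact_mod_cast h3
  · push Not at hbr
    by_cases h1 : ∃ u, 3 ≤ T.degree u
    · obtain ⟨u, hu⟩ := h1
      refine One.one_class r W p (m + 1) T hT
        (SimpleGraph.Coloring.mk (fun v => decide (c0 v = c0 u)) ?_) ?_
      · intro a b hab
        have h2 := c0.valid hab
        by_cases h3 : c0 a = c0 u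
        · have h4 : c0 b ≠ c0 u := fun h => h2 (h3.trans h.symm)
          simp [h3, h4]
        · have h4 : c0 b = c0 u := by omega
          simp [h3, h4]
      · intro v hv
        have h2 : u = v := by
          by_contra hne
          have := hbr u v hne hu
          omega
        subst h2
        show decide (c0 u = c0 u) = true
        simp
    · push Not at h1
      refine One.one_class r W p (m + 1) T hT
        (SimpleGraph.Coloring.mk (fun v => decide (c0 v = 0)) ?_) ?_
      · intro a b hab
        have h2 := c0.valid hab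
        by_cases h3 : c0 a = 0
        · have h4 : c0 b ≠ 0 := fun h => h2 (h3.trans h.symm)
          simp [h3, h4]
        · have h4 : c0 b = 0 := by omega
          simp [h3, h4]
      · intro v hv
        have := h1 v
        omega

end Pool.Agent.Helper56.HLA.TwoFifths
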